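import Mathlib

/-!
Levinson's method for a finite family of entire functions with a functional equation of the type
`B ^ s Γ(s) L(s)`: definitions.  (Project CRITICAL ZEROS on `MP_347b49_nt`, chapter 3.)
-/

set_option autoImplicit false

open Complex Filter Topology Set

namespace Pool.Agent.H31.LEV

/-- The closed rectangle `[a, b] + i [c, d]`. -/
def Rc (a b c d : ℝ) : Set ℂ := {s | a ≤ s.re ∧ s.re ≤ b ∧ c ≤ s.im ∧ s.im ≤ d}

/-- The open rectangle `(a, b) + i (c, d)`. -/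
def Ro (a b c d : ℝ) : Set ℂ := {s | a < s.re ∧ s.re < b ∧ c < s.im ∧ s.im < d}

/-- The number of zeros of `f` in `S`, with multiplicity. -/
noncomputable def NZ (f : ℂ → ℂ) (S : Set ℂ) : ℕ := ∑ᶠ ρ ∈ S, analyticOrderNatAt f ρ

/-- The point `x + i t`. -/
noncomputable def pt (x t : ℝ) : ℂ := (x : ℂ) + (t : ℂ) * I

/-- The change of the argument of `f` along the bottom, the right and the top side of the rectangle
`[1/2, 3] + i [c, d]` (counter-clockwise), as the imaginary part of the integral of `f' / f`. -/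
noncomputable def TSi (f : ℂ → ℂ) (c d : ℝ) : ℝ :=
  (∫ x in (1 / 2 : ℝ)..3, deriv f (pt x c) / f (pt x c)).im +
    (∫ t in c..d, deriv f (pt 3 t) / f (pt 3 t)).re -
    (∫ x in (1 / 2 : ℝ)..3, deriv f (pt x d) / f (pt x d)).im

/-- The change of the argument of `f` along the left side, upwards. -/
noncomputable def LSi (f : ℂ → ℂ) (c d : ℝ) : ℝ :=
  (∫ t in c..d, deriv f (pt (1 / 2) t) / f (pt (1 / 2) t)).re

/-- The gamma factor. -/
noncomputable def HH (B : ℝ) (s : ℂ) : ℂ := (B : ℂ) ^ s * Gamma s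

/-- The functional equation. -/
structure FEq (L : ℂ → ℂ) (B : ℝ) (W : ℂ) : Prop where
  diff : Differentiable ℂ L
  norm_W : ‖W‖ = 1
  fe : ∀ s : ℂ, 0 < s.re → s.re < 1 → HH B s * L s =
    W * (starRingEnd ℂ) (HH B (1 - (starRingEnd ℂ) s) * L (1 - (starRingEnd ℂ) s))

/-- The factor `1 + c H' / H`, `H = B ^ s Γ(s)`. -/
noncomputable def hh (B c : ℝ) (s : ℂ) : ℂ := 1 + c * (Real.log B + digamma s)

/-- Levinson's function: `(H L + c (H L)') / (H (1 + c H' / H))`. -/
noncomputable def VV (L : ℂ → ℂ) (B c : ℝ) (s : ℂ) : ℂ := L s + c / hh B c s * deriv L s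

/-- The ordinates in `(0, T)` of the simple zeros on the critical line. -/
def SC (L : ℂ → ℂ) (T : ℝ) : Set ℝ :=
  {t | 0 < t ∧ t < T ∧ L (pt (1 / 2) t) = 0 ∧ deriv L (pt (1 / 2) t) ≠ 0}

/-- The integral over three sides in Carleman's formula for the rectangle
`[a, b] + i [t₀, t₀ + U]`. -/
noncomputable def Ja (F : ℂ → ℂ) (a b t₀ U : ℝ) : ℝ :=
  (∫ t in (0 : ℝ)..U, Real.log ‖F (pt a (t₀ + t))‖ * Real.sin (Real.pi * t / U)) +
    ∫ x in a..b, (Real.log ‖F (pt x t₀)‖ + Real.log ‖F (pt x (t₀ + U))‖) *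
      Real.sinh (Real.pi * (x - a) / U)

/-- The conformal map of the half strip `Re s > a`, `t₀ < Im s < t₀ + U` to the upper half
plane. -/
noncomputable def cz (a t₀ U : ℝ) (s : ℂ) : ℂ := cosh (Real.pi * (s - pt a t₀) / U)

/-- The Blaschke factor of the half strip. -/
noncomputable def bl (a t₀ U : ℝ) (ρ s : ℂ) : ℂ :=
  (cz a t₀ U s - cz a t₀ U ρ) / (cz a t₀ U s - (starRingEnd ℂ) (cz a t₀ U ρ))

end Pool.Agent.H31.LEV
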