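import Pool.Agent.H31.LEV.Defs

/-!
Statements of the modules of Levinson's method (Project CRITICAL ZEROS, chapter 3).
-/

set_option autoImplicit false

open Complex Filter Topology Set

namespace Pool.Agent.H31.LEV

/-! ## Zeros and arguments -/

open Classical in
/-- [FAC] Splitting off the zeros in a compact set. -/
def T_FAC : Prop :=
  ∀ (f : ℂ → ℂ) (U K : Set ℂ), IsOpen U → IsPreconnected U → IsCompact K → K ⊆ U →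
    DifferentiableOn ℂ f U → (∃ z ∈ U, f z ≠ 0) →
    ∃ (Z : Multiset ℂ) (g : ℂ → ℂ), (∀ ρ ∈ Z, ρ ∈ K) ∧ (∀ ρ ∈ K, ρ ∈ Z ↔ f ρ = 0) ∧
      (∀ ρ ∈ K, Z.count ρ = analyticOrderNatAt f ρ) ∧
      (∀ S : Set ℂ, S ⊆ K → NZ f S = Multiset.card (Z.filter (· ∈ S))) ∧
      DifferentiableOn ℂ g U ∧ (∀ z ∈ K, g z ≠ 0) ∧
      ∀ z ∈ U, f z = (Z.map (fun ρ => z - ρ)).prod * g z

/-- [NCT] The number of zeros in a larger disc. -/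
def T_NCT : Prop :=
  ∀ (f : ℂ → ℂ) (z₀ : ℂ) (r R M : ℝ) (Z : Multiset ℂ) (g : ℂ → ℂ), 0 < r → r < R → 0 < M →
    DifferentiableOn ℂ g (Metric.ball z₀ R) →
    (∀ z ∈ Metric.ball z₀ R, f z = (Z.map (fun ρ => z - ρ)).prod * g z) →
    (∀ ρ ∈ Z, ‖ρ - z₀‖ ≤ r) → (∀ z ∈ Metric.ball z₀ R, ‖f z‖ ≤ M) →
    (R / r) ^ Multiset.card Z * ‖f z₀‖ ≤ M

/-- [HOR] The change of the argument on a horizontal side. -/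
def T_HOR : Prop :=
  ∃ C : ℝ, 0 < C ∧ ∀ (f : ℂ → ℂ) (τ M : ℝ), 1 ≤ M →
    DifferentiableOn ℂ f (Metric.ball (pt 3 τ) (14 / 5)) →
    (∀ s ∈ Metric.ball (pt 3 τ) (14 / 5), ‖f s‖ ≤ M) → 1 / 2 ≤ ‖f (pt 3 τ)‖ →
    (∀ x : ℝ, 1 / 2 ≤ x → x ≤ 3 → f (pt x τ) ≠ 0) →
    |(∫ x in (1 / 2 : ℝ)..3, deriv f (pt x τ) / f (pt x τ)).im| ≤ C * (1 + Real.log M)

/-- [VER] The change of the argument on a side where the function is near `1`. -/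
def T_VER : Prop :=
  ∀ (u u' : ℝ → ℂ) (c d : ℝ), c ≤ d → (∀ t ∈ Icc c d, HasDerivAt u (u' t) t) →
    ContinuousOn u' (Icc c d) → (∀ t ∈ Icc c d, 0 < (u t).re) →
    |(∫ t in c..d, u' t / u t).im| ≤ Real.pi

/-- [ANG] The angles for a linear factor. -/
def T_ANG : Prop :=
  ∀ (c d : ℝ) (ρ : ℂ), c < ρ.im → ρ.im < d → ρ.re < 3 →
    (1 / 2 < ρ.re → TSi (fun s => s - ρ) c d - LSi (fun s => s - ρ) c d = 2 * Real.pi) ∧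
      (ρ.re = 1 / 2 → TSi (fun s => s - ρ) c d = Real.pi)

/-- [CAU] Cauchy's theorem for the logarithmic derivative. -/
def T_CAU : Prop :=
  ∀ (g : ℂ → ℂ) (U : Set ℂ) (c d : ℝ), c ≤ d → IsOpen U → Rc (1 / 2) 3 c d ⊆ U →
    DifferentiableOn ℂ g U → (∀ z ∈ Rc (1 / 2) 3 c d, g z ≠ 0) → TSi g c d = LSi g c d

/-- [TS] The argument principle with the zeros of the left side taken out. -/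
def T_TS : Prop :=
  ∀ (f : ℂ → ℂ) (U : Set ℂ) (c d : ℝ), c < d → IsOpen U → IsPreconnected U →
    Rc (1 / 2) 3 c d ⊆ U → DifferentiableOn ℂ f U →
    (∀ x : ℝ, 1 / 2 ≤ x → x ≤ 3 → f (pt x c) ≠ 0 ∧ f (pt x d) ≠ 0) →
    (∀ t : ℝ, c ≤ t → t ≤ d → f (pt 3 t) ≠ 0) →
    ∃ (Y : Multiset ℝ) (G : ℂ → ℂ), (∀ y ∈ Y, c < y ∧ y < d) ∧ DifferentiableOn ℂ G U ∧
      (∀ t : ℝ, c ≤ t → t ≤ d → G (pt (1 / 2) t) ≠ 0) ∧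
      (∀ s ∈ U, f s = (Y.map (fun y : ℝ => s - pt (1 / 2) y)).prod * G s) ∧
      Multiset.card Y = NZ f {s | s.re = 1 / 2 ∧ c < s.im ∧ s.im < d} ∧
      LSi G c d = TSi f c d - 2 * Real.pi * NZ f {s | 1 / 2 < s.re ∧ s.re < 3 ∧ c < s.im ∧ s.im < d}
        - Real.pi * Multiset.card Y

/-- [GEN] Generic lines: a function which is not identically zero has no zeros on most horizontal
and vertical segments of a compact rectangle. -/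
def T_GEN : Prop :=
  ∀ (X : Type) [Finite X] (f : X → ℂ → ℂ) (U : Set ℂ) (a b c d : ℝ), IsOpen U →
    IsPreconnected U → Rc a b c d ⊆ U → (∀ i, DifferentiableOn ℂ (f i) U) →
    (∀ i, ∃ z ∈ U, f i z ≠ 0) →
    {x : ℝ | ∃ i, ∃ t : ℝ, pt x t ∈ Rc a b c d ∧ f i (pt x t) = 0}.Finite ∧
      {t : ℝ | ∃ i, ∃ x : ℝ, pt x t ∈ Rc a b c d ∧ f i (pt x t) = 0}.Finite

/-! ## The functional equation -/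

/-- [SYM] The symmetry of the zeros. -/
def T_SYM : Prop :=
  ∀ (L : ℂ → ℂ) (B : ℝ) (W : ℂ), 0 < B → FEq L B W → ∀ ρ : ℂ, 0 < ρ.re → ρ.re < 1 →
    analyticOrderNatAt L ρ = analyticOrderNatAt L (1 - (starRingEnd ℂ) ρ)

/-- [HHR] The factor `hh` and the function `VV`. -/
def T_HHR : Prop :=
  ∀ (L : ℂ → ℂ) (B c : ℝ) (U : Set ℂ), 1 ≤ B → 0 < c → Differentiable ℂ L → IsOpen U →
    (∀ s ∈ U, 0 < s.re ∧ c * ‖digamma s‖ ≤ 1 / 2) →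
    (∀ s ∈ U, 1 / 2 ≤ (hh B c s).re) ∧ DifferentiableOn ℂ (hh B c) U ∧
      DifferentiableOn ℂ (VV L B c) U ∧ ∀ s ∈ U, ‖VV L B c s‖ ≤ ‖L s‖ + 2 * c * ‖deriv L s‖

/-- [ORD] The zeros of a factor. -/
def T_ORD : Prop :=
  ∀ (f g : ℂ → ℂ) (U K S : Set ℂ), IsOpen U → IsPreconnected U → IsCompact K → K ⊆ U → S ⊆ K →
    DifferentiableOn ℂ f U → DifferentiableOn ℂ g U → (∃ z ∈ U, f z * g z ≠ 0) →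
    NZ f S ≤ NZ (fun s => f s * g s) S

/-- [ZT] The real function on the critical line. -/
def T_ZT : Prop :=
  ∀ (L : ℂ → ℂ) (B : ℝ) (W : ℂ), 0 < B → FEq L B W → ∃ (ω : ℂ) (Z Z' : ℝ → ℝ), ‖ω‖ = 1 ∧
    (∀ t, HasDerivAt Z (Z' t) t) ∧
    ∀ t : ℝ, HH B (pt (1 / 2) t) * L (pt (1 / 2) t) = ω * Z t ∧
      HH B (pt (1 / 2) t) * ((Real.log B + digamma (pt (1 / 2) t)) * L (pt (1 / 2) t) +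
        deriv L (pt (1 / 2) t)) = -I * ω * Z' t

/-- [RZ] Counting the points where the real part vanishes by the change of the argument. -/
def T_RZ : Prop :=
  ∀ (u u' : ℝ → ℂ) (c d : ℝ), c < d → (∀ t ∈ Icc c d, HasDerivAt u (u' t) t) →
    ContinuousOn u' (Icc c d) → (∀ t ∈ Icc c d, u t ≠ 0) → ∀ S : Finset ℝ,
    (∀ t ∈ Ioo c d, (u t).re = 0 → t ∈ S) →
    |(∫ t in c..d, u' t / u t).im| / Real.pi - 1 ≤ S.card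

/-- [NB] The upper bound for the number of all zeros. -/
def T_NB : Prop :=
  ∃ C : ℝ, 0 < C ∧ ∀ (L : ℂ → ℂ) (B : ℝ) (W : ℂ) (T M D : ℝ), 1 ≤ B → 1 ≤ T → 1 ≤ M → 0 ≤ D →
    FEq L B W → (∀ s ∈ Ro (1 / 10) 6 (-6) (T + 6), ‖L s‖ ≤ M) →
    (∀ t : ℝ, -1 ≤ t → t ≤ T + 1 → ‖L (pt 3 t) - 1‖ ≤ 1 / 2) →
    (∀ t : ℝ, -1 ≤ t → t ≤ T + 1 → |(digamma (pt (1 / 2) t)).re| ≤ D) →
    (NZ L {s | 0 < s.re ∧ s.re < 1 ∧ 0 < s.im ∧ s.im < T} : ℝ) ≤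
      (T + 2) * (Real.log B + D) / Real.pi + C * (1 + Real.log M)

/-- [NA] The lower bound for the number of simple zeros on the critical line. -/
def T_NA : Prop :=
  ∃ C : ℝ, 0 < C ∧ ∀ (L : ℂ → ℂ) (B : ℝ) (W : ℂ) (T M D c : ℝ), 1 ≤ B → 2 ≤ T → 1 ≤ M →
    0 ≤ D → 0 < c → c ≤ 1 → FEq L B W →
    (∀ s ∈ Ro (1 / 10) 6 (-6) (T + 6), ‖L s‖ ≤ M ∧ ‖deriv L s‖ ≤ M ∧ c * ‖digamma s‖ ≤ 1 / 2) →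
    (∀ t : ℝ, 0 ≤ t → t ≤ T → ‖VV L B c (pt 3 t) - 1‖ ≤ 1 / 2) →
    (∀ t : ℝ, 0 ≤ t → t ≤ T → |(digamma (pt (1 / 2) t)).re| ≤ D) →
    (T - 2) * (Real.log B - D) / Real.pi -
        2 * NZ (VV L B c) {s | 1 / 2 ≤ s.re ∧ s.re < 3 ∧ 0 < s.im ∧ s.im < T} -
        C * (1 + Real.log M) ≤ (Set.ncard (SC L T) : ℝ)

/-! ## Carleman's formula -/

/-- [BLA] The Blaschke factor. -/
def T_BLA : Prop :=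
  ∀ (a t₀ U : ℝ) (ρ : ℂ), 0 < U → a < ρ.re → t₀ < ρ.im → ρ.im < t₀ + U →
    (∃ (V : Set ℂ) (k : ℂ → ℂ), IsOpen V ∧ (∀ s : ℂ, a ≤ s.re → t₀ ≤ s.im → s.im ≤ t₀ + U → s ∈ V) ∧
      DifferentiableOn ℂ (bl a t₀ U ρ) V ∧ DifferentiableOn ℂ k V ∧
      (∀ s ∈ V, bl a t₀ U ρ s = (s - ρ) * k s) ∧
      ∀ s : ℂ, a ≤ s.re → t₀ ≤ s.im → s.im ≤ t₀ + U → k s ≠ 0) ∧
    (∀ t : ℝ, 0 ≤ t → t ≤ U → ‖bl a t₀ U ρ (pt a (t₀ + t))‖ = 1) ∧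
    ∀ x : ℝ, a ≤ x → ‖bl a t₀ U ρ (pt x t₀)‖ = 1 ∧ ‖bl a t₀ U ρ (pt x (t₀ + U))‖ = 1

/-- [BLL] The Blaschke factor to the right of the zero avoids the negative real axis. -/
def T_BLL : Prop :=
  ∀ (a t₀ U : ℝ) (ρ s : ℂ), 0 < U → a < ρ.re → t₀ < ρ.im → ρ.im < t₀ + U → ρ.re < s.re →
    t₀ ≤ s.im → s.im ≤ t₀ + U → bl a t₀ U ρ s ∈ slitPlane

/-- [BLI] The integral over the right side. -/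
def T_BLI : Prop :=
  ∀ (a b t₀ U : ℝ) (ρ : ℂ), 0 < U → a < ρ.re → ρ.re < b → t₀ < ρ.im → ρ.im < t₀ + U →
    (∫ t in (0 : ℝ)..U, log (bl a t₀ U ρ (pt b (t₀ + t))) *
      (sinh (Real.pi * (pt b (t₀ + t) - pt a t₀) / U) * I)).re =
      2 * U * (Real.sinh (Real.pi * (ρ.re - a) / U) * Real.sin (Real.pi * (ρ.im - t₀) / U))

/-- [CZF] Carleman's formula without zeros. -/
def T_CZF : Prop :=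
  ∀ (g : ℂ → ℂ) (V : Set ℂ) (a b t₀ U : ℝ), 0 < U → a < b → IsOpen V →
    Rc a b t₀ (t₀ + U) ⊆ V → DifferentiableOn ℂ g V → (∀ z ∈ Rc a b t₀ (t₀ + U), g z ≠ 0) →
    ∃ φ : ℝ → ℂ, ContinuousOn φ (Icc 0 U) ∧
      (∀ t ∈ Icc 0 U, exp (φ t) = g (pt b (t₀ + t))) ∧
      Ja g a b t₀ U + (∫ t in (0 : ℝ)..U, φ t *
        (sinh (Real.pi * (pt b (t₀ + t) - pt a t₀) / U) * I)).re = 0

/-- [CAR] Carleman's inequality. -/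
def T_CAR : Prop :=
  ∀ (F : ℂ → ℂ) (V : Set ℂ) (a b t₀ U δ : ℝ), 0 < U → a < b → 0 ≤ δ → δ ≤ 1 / 2 → IsOpen V →
    IsPreconnected V → Rc a b t₀ (t₀ + U) ⊆ V → DifferentiableOn ℂ F V →
    (∀ t : ℝ, 0 ≤ t → t ≤ U → F (pt a (t₀ + t)) ≠ 0) →
    (∀ x : ℝ, a ≤ x → x ≤ b → F (pt x t₀) ≠ 0 ∧ F (pt x (t₀ + U)) ≠ 0) →
    (∀ t : ℝ, 0 ≤ t → t ≤ U → ‖F (pt b (t₀ + t)) - 1‖ ≤ δ) →
    ∀ S : Finset ℂ, (∀ ρ ∈ S, ρ ∈ Ro a b t₀ (t₀ + U)) →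
    2 * Real.pi * ∑ ρ ∈ S, (analyticOrderNatAt F ρ : ℝ) * ((ρ.re - a) *
      Real.sin (Real.pi * (ρ.im - t₀) / U)) ≤
      Ja F a b t₀ U + 2 * δ * U * Real.exp (Real.pi * (b - a) / U)

/-- [SIN] Sums of sines over a grid. -/
def T_SIN : Prop :=
  ∀ (K : ℕ) (x : ℝ), 2 ≤ K → 0 ≤ x → x ≤ 1 →
    Real.cos (Real.pi / (2 * K)) / Real.sin (Real.pi / (2 * K)) ≤
      ∑ i ∈ Finset.range K, Real.sin (Real.pi * (x + i) / K)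

/-- [WIN] The bound for one function from the windows. -/
def T_WIN : Prop :=
  ∀ (F : ℂ → ℂ) (V : Set ℂ) (K J : ℕ) (a δ T ts : ℝ), 2 ≤ K → 0 < a → a < 1 / 2 → 0 ≤ δ →
    δ ≤ 1 / 2 → 1 ≤ T → 0 < ts → ts < 3 / K → (T + 3) * K / 3 ≤ J → (J : ℝ) ≤ (T + 3) * K / 3 + 1 →
    IsOpen V → IsPreconnected V → Rc a 3 (-3) (T + 7) ⊆ V → DifferentiableOn ℂ F V →
    (∀ t : ℝ, -3 ≤ t → t ≤ T + 7 → F (pt a t) ≠ 0) →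
    (∀ j ≤ J, ∀ x : ℝ, a ≤ x → x ≤ 3 → F (pt x (ts - 3 + j * (3 / K))) ≠ 0 ∧
      F (pt x (ts - 3 + j * (3 / K) + 3)) ≠ 0) →
    (∀ t : ℝ, -3 ≤ t → t ≤ T + 7 → ‖F (pt 3 t) - 1‖ ≤ δ) →
    2 * Real.pi * (Real.cos (Real.pi / (2 * K)) / Real.sin (Real.pi / (2 * K))) *
      ((1 / 2 - a) * NZ F {s | 1 / 2 ≤ s.re ∧ s.re < 3 ∧ 0 < s.im ∧ s.im < T}) ≤
      ∑ j ∈ Finset.range (J + 1), (Ja F a 3 (ts - 3 + j * (3 / K)) 3 +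
        6 * δ * Real.exp Real.pi)

/-- [JLG] Jensen's inequality for the logarithm. -/
def T_JLG : Prop :=
  ∀ (X : Type) [Fintype X] (x : X → ℂ) (C : ℝ), 1 ≤ C → (∀ i, x i ≠ 0) →
    ∑ i, ‖x i‖ ^ 2 ≤ C * Fintype.card X →
    ∑ i, Real.log ‖x i‖ ≤ (Fintype.card X : ℝ) * (Real.log C / 2)

/-- [JAV] The average of the integrals over the family. -/
def T_JAV : Prop :=
  ∃ C₀ : ℝ, 0 < C₀ ∧ ∀ (X : Type) [Fintype X] (F : X → ℂ → ℂ) (V : Set ℂ)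
    (a t₀ ε C₁ C₂ : ℝ), 0 < a → a < 1 / 2 → 0 < ε → ε ≤ 1 → 1 / 2 - ε ≤ a → 1 ≤ C₁ → 1 ≤ C₂ →
    IsOpen V → Rc a 3 t₀ (t₀ + 3) ⊆ V → (∀ i, DifferentiableOn ℂ (F i) V) →
    (∀ i, ∀ t : ℝ, t₀ ≤ t → t ≤ t₀ + 3 → F i (pt a t) ≠ 0) →
    (∀ i, ∀ x : ℝ, a ≤ x → x ≤ 3 → F i (pt x t₀) ≠ 0 ∧ F i (pt x (t₀ + 3)) ≠ 0) →
    (∀ t : ℝ, t₀ ≤ t → t ≤ t₀ + 3 → ∑ i, ‖F i (pt a t)‖ ^ 2 ≤ C₁ * Fintype.card X) →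
    (∀ x : ℝ, a ≤ x → x ≤ 3 → ∀ t ∈ ({t₀, t₀ + 3} : Set ℝ),
      ∑ i, ‖F i (pt x t)‖ ^ 2 ≤ C₂ * Fintype.card X) →
    (∀ x : ℝ, 1 / 2 + ε ≤ x → x ≤ 3 → ∀ t ∈ ({t₀, t₀ + 3} : Set ℝ),
      ∑ i, ‖F i (pt x t)‖ ^ 2 ≤ (1 + ε) * Fintype.card X) →
    ∑ i, Ja (F i) a 3 t₀ 3 ≤ (Fintype.card X : ℝ) *
      (3 / Real.pi * Real.log C₁ + C₀ * ε * (1 + Real.log C₂))

/-! ## The final theorem -/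

/-- [FIN] The two inequalities for a family. -/
def T_FIN : Prop :=
  ∃ C₀ : ℝ, 0 < C₀ ∧ ∀ (X : Type) [Fintype X] (L ψ : X → ℂ → ℂ) (W : X → ℂ) (K : ℕ)
    (T A D ε δ ℓ c a a₁ B C₁ C₂ : ℝ), 2 ≤ K → 2 ≤ T → 1 ≤ A → 1 ≤ ℓ → 0 ≤ D → 0 < ε → ε ≤ 1 / 4 →
    0 ≤ δ → δ ≤ 1 / 2 → 0 < c → c ≤ 1 → 1 / 2 - ε ≤ a → a < a₁ → a₁ < 1 / 2 → 1 ≤ B → 1 ≤ C₁ →
    1 ≤ C₂ → (∀ χ, FEq (L χ) B (W χ)) → (∀ χ, Differentiable ℂ (ψ χ)) →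
    (∀ χ, ∀ s : ℂ, 1 / 20 ≤ s.re → s.re ≤ 7 → |s.im| ≤ T + 10 → ‖L χ s‖ ≤ Real.exp (A * ℓ)) →
    (∀ s : ℂ, 1 / 20 ≤ s.re → s.re ≤ 7 → |s.im| ≤ T + 10 → ‖digamma s‖ ≤ D) → c * D ≤ 1 / 2 →
    (∀ χ, ∀ t : ℝ, |t| ≤ T + 10 → ‖L χ (pt 3 t) - 1‖ ≤ 1 / 2 ∧
      ‖VV (L χ) B c (pt 3 t) - 1‖ ≤ 1 / 2 ∧ ‖VV (L χ) B c (pt 3 t) * ψ χ (pt 3 t) - 1‖ ≤ δ) →
    (∀ σ t : ℝ, a ≤ σ → σ ≤ a₁ → |t| ≤ T + 10 →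
      ∑ χ, ‖VV (L χ) B c (pt σ t) * ψ χ (pt σ t)‖ ^ 2 ≤ C₁ * Fintype.card X) →
    (∀ σ t : ℝ, a ≤ σ → σ ≤ 3 → |t| ≤ T + 10 →
      ∑ χ, ‖VV (L χ) B c (pt σ t) * ψ χ (pt σ t)‖ ^ 2 ≤ C₂ * Fintype.card X) →
    (∀ σ t : ℝ, 1 / 2 + ε ≤ σ → σ ≤ 3 → |t| ≤ T + 10 →
      ∑ χ, ‖VV (L χ) B c (pt σ t) * ψ χ (pt σ t)‖ ^ 2 ≤ (1 + ε) * Fintype.card X) →
    ∃ N : ℝ, 0 ≤ N ∧
      (Fintype.card X : ℝ) * ((T - 2) * (Real.log B - D) / Real.pi - C₀ * (1 + A * ℓ)) - 2 * N ≤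
        ∑ χ, (Set.ncard (SC (L χ) T) : ℝ) ∧
      2 * Real.pi * (Real.cos (Real.pi / (2 * K)) / Real.sin (Real.pi / (2 * K))) *
        ((1 / 2 - a₁) * N) ≤ (Fintype.card X : ℝ) * (((T + 3) * K / 3 + 2) *
          (3 / Real.pi * Real.log C₁ + C₀ * ε * (1 + Real.log C₂) + C₀ * δ)) ∧
      ∑ χ, (NZ (L χ) {s | 0 < s.re ∧ s.re < 1 ∧ 0 < s.im ∧ s.im < T} : ℝ) ≤
        (Fintype.card X : ℝ) * ((T + 2) * (Real.log B + D) / Real.pi + C₀ * (1 + A * ℓ))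

/-- The hypotheses on the family. -/
structure Fam {X : Type} [Fintype X] (L ψ : X → ℂ → ℂ) (W : X → ℂ) (B R lam C₁ C₂ A ε ℓ T' : ℝ) :
    Prop where
  fe : ∀ χ, FEq (L χ) B (W χ)
  dψ : ∀ χ, Differentiable ℂ (ψ χ)
  logB : |2 * Real.log B - ℓ| ≤ A
  growth : ∀ χ, ∀ s : ℂ, 1 / 20 ≤ s.re → s.re ≤ 7 → |s.im| ≤ T' → ‖L χ s‖ ≤ Real.exp (A * ℓ)
  right1 : ∀ χ, ∀ t : ℝ, |t| ≤ T' → ‖L χ (pt 3 t) - 1‖ ≤ 9 / 20 ∧ ‖deriv (L χ) (pt 3 t)‖ ≤ A ∧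
    ‖ψ χ (pt 3 t)‖ ≤ A
  right2 : ∀ χ, ∀ t : ℝ, |t| ≤ T' → ‖L χ (pt 3 t) * ψ χ (pt 3 t) - 1‖ ≤ ε
  mom1 : ∀ (σ t : ℝ) (l : ℂ), 1 / 2 - R / ℓ ≤ σ → σ ≤ 1 / 2 - (R - ε) / ℓ → |t| ≤ T' →
    ‖ℓ * l - lam‖ ≤ ε → ∑ χ, ‖(L χ (pt σ t) + l * deriv (L χ) (pt σ t)) * ψ χ (pt σ t)‖ ^ 2 ≤
      C₁ * Fintype.card X
  mom2 : ∀ (σ t : ℝ) (l : ℂ), 1 / 2 - R / ℓ ≤ σ → σ ≤ 3 → |t| ≤ T' →
    ‖ℓ * l - lam‖ ≤ ε → ∑ χ, ‖(L χ (pt σ t) + l * deriv (L χ) (pt σ t)) * ψ χ (pt σ t)‖ ^ 2 ≤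
      C₂ * Fintype.card X
  mom3 : ∀ (σ t : ℝ) (l : ℂ), 1 / 2 + ε ≤ σ → σ ≤ 3 → |t| ≤ T' →
    ‖ℓ * l - lam‖ ≤ ε → ∑ χ, ‖(L χ (pt σ t) + l * deriv (L χ) (pt σ t)) * ψ χ (pt σ t)‖ ^ 2 ≤
      (1 + ε) * Fintype.card X

/-- [LEV] Levinson's theorem for families: a proportion `1 - log C₁ / R` of the zeros are simple
and on the critical line. -/
def T_LEV : Prop :=
  ∀ R lam C₁ C₂ A κ : ℝ, 0 < R → 0 < lam → lam < 2 → 1 ≤ C₁ → 1 ≤ C₂ → 1 ≤ A →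
    κ < 1 - Real.log C₁ / R → ∃ T₀ : ℝ, ∀ T ≥ T₀, ∃ T' ε ℓ₀ : ℝ, 0 < ε ∧ ∀ ℓ ≥ ℓ₀,
    ∀ (X : Type) [Fintype X] (L ψ : X → ℂ → ℂ) (W : X → ℂ) (B : ℝ), 0 < B →
    Fam L ψ W B R lam C₁ C₂ A ε ℓ T' →
    κ * ∑ χ, (NZ (L χ) {s | 0 < s.re ∧ s.re < 1 ∧ 0 < s.im ∧ s.im < T} : ℝ) ≤
      ∑ χ, (Set.ncard (SC (L χ) T) : ℝ)

end Pool.Agent.H31.LEV
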